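import Mathlib

/-!
# Baer *-semigroups and AW*-algebras
-/

set_option autoImplicit false

namespace Pool.Agent.Q193.AW

/-- `e` is the annihilating projection of the set `S`: it is a projection, and the right
annihilator of `S` is `e M`. -/
def IsRann {M : Type} [MonoidWithZero M] [StarMul M] (S : Set M) (e : M) : Prop :=
  IsStarProjection e ∧ ∀ y : M, (∀ x ∈ S, x * y = 0) ↔ ∃ z : M, y = e * z

/-- Baer *-semigroups (with unit; the annihilating projection of the empty set is a unit). -/
def IsBaer (M : Type) [MonoidWithZero M] [StarMul M] : Prop :=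
  ∀ S : Set M, ∃ e : M, IsRann S e

/-- Morphisms of Baer *-semigroups: multiplicative, compatible with the involution and with
annihilating projections. -/
structure IsBaerHom {M N : Type} [MonoidWithZero M] [StarMul M] [MonoidWithZero N] [StarMul N]
    (φ : M → N) : Prop where
  mul : ∀ x y, φ (x * y) = φ x * φ y
  star : ∀ x, φ (star x) = star (φ x)
  rann : ∀ (S : Set M) (e : M), IsRann S e → IsRann (φ '' S) (φ e)

/-- AW*-algebras: unital C*-algebras in which every right annihilator is generated by a
projection. -/
def IsAW (A : Type) [CStarAlgebra A] : Prop := ∀ S : Set A, ∃ e : A, IsRann S e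

/-- The monoid `P(A)` generated by the projections of `A`. -/
def PA (A : Type) [CStarAlgebra A] : Submonoid A := Submonoid.closure {p | IsStarProjection p}

section PA

variable {A : Type} [CStarAlgebra A]

lemma proj_mem {p : A} (hp : IsStarProjection p) : p ∈ PA A := Submonoid.subset_closure hp

lemma zero_mem : (0 : A) ∈ PA A := proj_mem (IsStarProjection.zero A)

lemma star_mem {x : A} (hx : x ∈ PA A) : star x ∈ PA A := by
  induction hx using Submonoid.closure_induction with
  | mem x hx =>
    have : star x = x := hx.isSelfAdjoint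
    rw [this]
    exact proj_mem hx
  | one => rw [star_one]; exact Submonoid.one_mem _
  | mul x y _ _ hx hy => rw [star_mul]; exact Submonoid.mul_mem _ hy hx

instance : Zero (PA A) := ⟨⟨0, zero_mem⟩⟩

instance : MonoidWithZero (PA A) where
  zero_mul _ := Subtype.ext (zero_mul _)
  mul_zero _ := Subtype.ext (mul_zero _)

instance : StarMul (PA A) where
  star x := ⟨star x.1, star_mem x.2⟩
  star_involutive _ := Subtype.ext (star_star _)
  star_mul _ _ := Subtype.ext (star_mul _ _)

lemma coe_mul (x y : PA A) : ((x * y : PA A) : A) = x * y := rfl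

lemma coe_star (x : PA A) : ((star x : PA A) : A) = star (x : A) := rfl

lemma coe_zero : ((0 : PA A) : A) = 0 := rfl

lemma isStarProjection_coe {e : PA A} : IsStarProjection (e : A) ↔ IsStarProjection e := by
  constructor
  · intro h
    exact ⟨Subtype.ext h.isIdempotentElem, Subtype.ext h.isSelfAdjoint⟩
  · intro h
    exact ⟨congrArg Subtype.val h.isIdempotentElem, congrArg Subtype.val h.isSelfAdjoint⟩

end PA

/-- the description of the annihilating projection by fixed elements -/
lemma isRann_iff {M : Type} [MonoidWithZero M] [StarMul M] {S : Set M} {e : M}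
    (he : IsStarProjection e) :
    IsRann S e ↔ ∀ y : M, (∀ x ∈ S, x * y = 0) ↔ e * y = y := by
  have key : ∀ y : M, (∃ z : M, y = e * z) ↔ e * y = y := by
    intro y
    constructor
    · rintro ⟨z, rfl⟩
      rw [← mul_assoc]
      exact congrArg (· * z) he.isIdempotentElem
    · intro h
      exact ⟨y, h.symm⟩
  unfold IsRann
  simp only [key]
  exact ⟨fun h => h.2, fun h => ⟨he, h⟩⟩

section PA2

variable {A : Type} [CStarAlgebra A]

/-- annihilating projections in `P(A)` are those in `A` -/
lemma rann_coe (hA : IsAW A) (S : Set (PA A)) (e : PA A) :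
    IsRann S e ↔ IsRann (Subtype.val '' S) (e : A) := by
  obtain ⟨f, hf⟩ := hA (Subtype.val '' S)
  have hf1 := (isRann_iff hf.1).mp hf
  have hb : IsRann S (⟨f, proj_mem hf.1⟩ : PA A) := by
    rw [isRann_iff (isStarProjection_coe.mp hf.1)]
    intro y
    constructor
    · intro h
      apply Subtype.ext
      refine (hf1 y.1).mp ?_
      rintro _ ⟨x, hx, rfl⟩
      exact congrArg Subtype.val (h x hx)
    · intro h x hx
      apply Subtype.ext
      exact (hf1 y.1).mpr (congrArg Subtype.val h) x.1 ⟨x, hx, rfl⟩
  have hb1 := (isRann_iff hb.1).mp hb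
  constructor
  · intro h
    have h1 := (isRann_iff h.1).mp h
    have e1 : (⟨f, proj_mem hf.1⟩ : PA A) * e = e := by
      rw [← hb1, h1]
      exact h.1.isIdempotentElem
    have e2 : e * (⟨f, proj_mem hf.1⟩ : PA A) = ⟨f, proj_mem hf.1⟩ := by
      rw [← h1, hb1]
      exact hb.1.isIdempotentElem
    have e3 := congrArg star e2
    rw [star_mul] at e3
    have e4 : star e = e := h.1.isSelfAdjoint
    have e5 : star (⟨f, proj_mem hf.1⟩ : PA A) = ⟨f, proj_mem hf.1⟩ := hb.1.isSelfAdjoint
    rw [e4, e5, e1] at e3
    rw [e3]
    exact hf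
  · intro h
    have h1 := (isRann_iff h.1).mp h
    rw [isRann_iff (isStarProjection_coe.mp h.1)]
    intro y
    constructor
    · intro h2
      apply Subtype.ext
      refine (h1 y.1).mp ?_
      rintro _ ⟨x, hx, rfl⟩
      exact congrArg Subtype.val (h2 x hx)
    · intro h2 x hx
      apply Subtype.ext
      exact (h1 y.1).mpr (congrArg Subtype.val h2) x.1 ⟨x, hx, rfl⟩

/-- `P(A)` is a Baer *-semigroup -/
theorem baer_PA (hA : IsAW A) : IsBaer (PA A) := by
  intro S
  obtain ⟨f, hf⟩ := hA (Subtype.val '' S)
  exact ⟨⟨f, proj_mem hf.1⟩, (rann_coe hA S _).mpr hf⟩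

end PA2

section BH

variable {H : Type} [NormedAddCommGroup H] [InnerProductSpace ℂ H] [CompleteSpace H]

/-- `B(H)` is an AW*-algebra -/
theorem isAW_BH : IsAW (H →L[ℂ] H) := by
  intro S
  let K : Submodule ℂ H := ⨅ x ∈ S, LinearMap.ker (x : H →ₗ[ℂ] H)
  have hK : IsClosed (K : Set H) := by
    have : (K : Set H) = ⋂ x ∈ S, {v | x v = 0} := by
      ext v
      simp [K]
    rw [this]
    exact isClosed_biInter fun x _ => isClosed_eq x.continuous continuous_const
  have : CompleteSpace K := hK.completeSpace_coe
  refine ⟨K.starProjection, (isRann_iff isStarProjection_starProjection).mpr fun y => ?_⟩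
  have hmem : ∀ v : H, v ∈ K ↔ ∀ x ∈ S, x v = 0 := by
    intro v
    simp [K]
  constructor
  · intro h
    ext1 v
    change K.starProjection (y v) = y v
    rw [Submodule.starProjection_eq_self_iff, hmem]
    intro x hx
    exact congrArg (fun T : H →L[ℂ] H => T v) (h x hx)
  · intro h x hx
    ext1 v
    change x (y v) = 0
    have h1 : K.starProjection (y v) = y v := congrArg (fun T : H →L[ℂ] H => T v) h
    rw [Submodule.starProjection_eq_self_iff, hmem] at h1
    exact h1 x hx

end BH

end Pool.Agent.Q193.AW
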