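import Pool.Agent.Q193.AW.Basic

/-!
# Complex conjugation of matrices
-/

set_option autoImplicit false

namespace Pool.Agent.Q193.AW

section prod

variable {A B : Type} [CStarAlgebra A] [CStarAlgebra B]

/-- products of AW*-algebras -/
theorem isAW_prod (hA : IsAW A) (hB : IsAW B) : IsAW (A × B) := by
  intro S
  obtain ⟨e, he⟩ := hA (Prod.fst '' S)
  obtain ⟨f, hf⟩ := hB (Prod.snd '' S)
  have hp : IsStarProjection ((e, f) : A × B) :=
    ⟨Prod.ext he.1.isIdempotentElem hf.1.isIdempotentElem,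
      Prod.ext he.1.isSelfAdjoint hf.1.isSelfAdjoint⟩
  refine ⟨(e, f), (isRann_iff hp).mpr fun y => ?_⟩
  have h1 := (isRann_iff he.1).mp he
  have h2 := (isRann_iff hf.1).mp hf
  constructor
  · intro h
    refine Prod.ext ((h1 y.1).mp ?_) ((h2 y.2).mp ?_)
    · rintro _ ⟨x, hx, rfl⟩
      exact congrArg Prod.fst (h x hx)
    · rintro _ ⟨x, hx, rfl⟩
      exact congrArg Prod.snd (h x hx)
  · intro h x hx
    exact Prod.ext ((h1 y.1).mpr (congrArg Prod.fst h) x.1 ⟨x, hx, rfl⟩)
      ((h2 y.2).mpr (congrArg Prod.snd h) x.2 ⟨x, hx, rfl⟩)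

end prod

section twist

variable {A : Type} [CStarAlgebra A] (Φ : A ≃+* A) (hΦ : ∀ x, Φ (star x) = star (Φ x))

include hΦ in
lemma twist_mem {x : A} (hx : x ∈ PA A) : (x, Φ x) ∈ PA (A × A) := by
  induction hx using Submonoid.closure_induction with
  | mem x hx =>
    apply proj_mem
    have h1 : Φ x * Φ x = Φ x := by
      rw [← map_mul]; exact congrArg Φ hx.isIdempotentElem
    have h2 : star (Φ x) = Φ x := by
      rw [← hΦ]; exact congrArg Φ hx.isSelfAdjoint
    exact ⟨Prod.ext hx.isIdempotentElem h1, Prod.ext hx.isSelfAdjoint h2⟩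
  | one => rw [map_one]; exact Submonoid.one_mem _
  | mul x y _ _ hx hy => rw [map_mul]; exact Submonoid.mul_mem _ hx hy

/-- the map `x ↦ (x, Φ x)` -/
def twist (x : PA A) : PA (A × A) := ⟨(x.1, Φ x.1), twist_mem Φ hΦ x.2⟩

theorem twist_hom (hA : IsAW A) : IsBaerHom (twist Φ hΦ) where
  mul x y := Subtype.ext (Prod.ext rfl (map_mul Φ _ _))
  star x := Subtype.ext (Prod.ext rfl (hΦ _))
  rann S e he := by
    have hp : IsStarProjection (twist Φ hΦ e) := by
      refine isStarProjection_coe.mp ?_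
      have h := isStarProjection_coe.mpr he.1
      have h1 : Φ (e : A) * Φ e = Φ e := by
        rw [← map_mul]; exact congrArg Φ h.isIdempotentElem
      have h2 : star (Φ (e : A)) = Φ e := by
        rw [← hΦ]; exact congrArg Φ h.isSelfAdjoint
      exact ⟨Prod.ext h.isIdempotentElem h1, Prod.ext h.isSelfAdjoint h2⟩
    have h0 := (rann_coe hA S e).mp he
    have h1 := (isRann_iff h0.1).mp h0
    rw [isRann_iff hp]
    intro y
    constructor
    · intro h
      apply Subtype.ext
      refine Prod.ext ((h1 y.1.1).mp ?_) ?_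
      · rintro _ ⟨x, hx, rfl⟩
        exact congrArg (fun t : PA (A × A) => t.1.1) (h _ ⟨x, hx, rfl⟩)
      · have h2 : (e : A) * Φ.symm y.1.2 = Φ.symm y.1.2 := by
          refine (h1 _).mp ?_
          rintro _ ⟨x, hx, rfl⟩
          apply Φ.injective
          rw [map_mul, map_zero, RingEquiv.apply_symm_apply]
          exact congrArg (fun t : PA (A × A) => t.1.2) (h _ ⟨x, hx, rfl⟩)
        have h3 := congrArg Φ h2
        rw [map_mul, RingEquiv.apply_symm_apply] at h3
        exact h3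
    · rintro h _ ⟨x, hx, rfl⟩
      have ha := congrArg (fun t : PA (A × A) => t.1.1) h
      have hb : Φ e * y.1.2 = y.1.2 := congrArg (fun t : PA (A × A) => t.1.2) h
      apply Subtype.ext
      refine Prod.ext ((h1 y.1.1).mpr ha x.1 ⟨x, hx, rfl⟩) ?_
      have h2 : (x : A) * Φ.symm y.1.2 = 0 := by
        refine (h1 (Φ.symm y.1.2)).mpr ?_ x.1 ⟨x, hx, rfl⟩
        apply Φ.injective
        rw [map_mul, RingEquiv.apply_symm_apply]
        exact hb
      have h3 := congrArg Φ h2
      rw [map_mul, RingEquiv.apply_symm_apply, map_zero] at h3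
      exact h3

end twist

section two

/-- `B(ℂ²)` -/
abbrev A2 : Type := EuclideanSpace ℂ (Fin 2) →L[ℂ] EuclideanSpace ℂ (Fin 2)

/-- the isomorphism with the matrices -/
noncomputable def tw : Matrix (Fin 2) (Fin 2) ℂ ≃⋆ₐ[ℂ] A2 := Matrix.toEuclideanCLM

/-- entrywise conjugation of matrices -/
noncomputable def mc : Matrix (Fin 2) (Fin 2) ℂ ≃+* Matrix (Fin 2) (Fin 2) ℂ :=
  RingEquiv.mapMatrix (starRingAut (R := ℂ))

/-- entrywise conjugation on `B(ℂ²)` -/
noncomputable def cj : A2 ≃+* A2 :=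
  ((tw.toRingEquiv.symm).trans mc).trans tw.toRingEquiv

lemma cj_tw (M : Matrix (Fin 2) (Fin 2) ℂ) : cj (tw M) = tw (mc M) := by
  change tw (mc (tw.symm (tw M))) = _
  rw [StarAlgEquiv.symm_apply_apply]

lemma mc_apply (M : Matrix (Fin 2) (Fin 2) ℂ) (i j : Fin 2) : mc M i j = star (M i j) := rfl

lemma mc_star (M : Matrix (Fin 2) (Fin 2) ℂ) : mc (star M) = star (mc M) := by
  ext i j
  rfl

lemma cj_star (x : A2) : cj (star x) = star (cj x) := by
  obtain ⟨M, rfl⟩ : ∃ M, tw M = x := ⟨tw.symm x, tw.apply_symm_apply x⟩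
  rw [← map_star, cj_tw, cj_tw, mc_star, map_star]

/-- three projections -/
noncomputable def p1 : Matrix (Fin 2) (Fin 2) ℂ := !![1, 0; 0, 0]
/-- second -/
noncomputable def p2 : Matrix (Fin 2) (Fin 2) ℂ := !![1/2, 1/2; 1/2, 1/2]
/-- third -/
noncomputable def p3 : Matrix (Fin 2) (Fin 2) ℂ := !![1/2, -Complex.I/2; Complex.I/2, 1/2]

lemma proj_tw {M : Matrix (Fin 2) (Fin 2) ℂ} (h1 : M * M = M) (h2 : star M = M) :
    IsStarProjection (tw M) := by
  refine ⟨?_, ?_⟩
  · change tw M * tw M = tw M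
    rw [← map_mul, h1]
  · change star (tw M) = tw M
    rw [← map_star, h2]

lemma hp1 : IsStarProjection (tw p1) := by
  apply proj_tw
  · ext i j; fin_cases i <;> fin_cases j <;> simp [p1]
  · ext i j; fin_cases i <;> fin_cases j <;> simp [p1]

lemma hp2 : IsStarProjection (tw p2) := by
  apply proj_tw
  · ext i j; fin_cases i <;> fin_cases j <;> simp [p2, Matrix.mul_apply, Fin.sum_univ_two] <;> norm_num
  · ext i j; fin_cases i <;> fin_cases j <;> simp [p2]

lemma hp3 : IsStarProjection (tw p3) := by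
  apply proj_tw
  · ext i j; fin_cases i <;> fin_cases j <;> simp [p3, Matrix.mul_apply, Fin.sum_univ_two] <;>
      ring_nf <;> simp <;> norm_num
  · ext i j; fin_cases i <;> fin_cases j <;> simp [p3]

lemma prod_eq : p1 * p2 * p3 * p1 = ((1 + Complex.I) / 4) • p1 := by
  ext i j; fin_cases i <;> fin_cases j <;>
    simp [p1, p2, p3, Matrix.mul_apply, Fin.sum_univ_two]
  all_goals ring

lemma mc_p1 : mc p1 = p1 := by
  ext i j; fin_cases i <;> fin_cases j <;> simp [p1, mc_apply]

lemma mc_smul (c : ℂ) : mc (c • p1) = star c • p1 := by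
  ext i j; fin_cases i <;> fin_cases j <;> simp [p1, mc_apply]

end two

end Pool.Agent.Q193.AW
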